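import Mathlib

/-!
A normal space `X` with a functionally `G_δ` subset that is not 1-embedded: `X` is the plane in which
the points outside `ℚ × ℚ` are made isolated, and the subset is the complement of `ℚ × ℚ`.
-/

set_option autoImplicit false

open Set Filter Topology

namespace Pool.Agent.Results.MP_aca66f_gt.IsolatedIrrationals

/-! ### The notions -/

section Defs

variable {X : Type} [TopologicalSpace X]

/-- Functionally closed sets. -/
def FunClosed (A : Set X) : Prop := ∃ f : X → unitInterval, Continuous f ∧ A = {x | f x = 0}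

/-- Functionally open sets. -/
def FunOpen (A : Set X) : Prop := ∃ f : X → unitInterval, Continuous f ∧ A = {x | 0 < f x}

/-- Functionally `F_σ` sets. -/
def FunFσ (A : Set X) : Prop := ∃ F : ℕ → Set X, (∀ n, FunClosed (F n)) ∧ A = ⋃ n, F n

/-- Functionally `G_δ` sets. -/
def FunGδ (A : Set X) : Prop := ∃ G : ℕ → Set X, (∀ n, FunOpen (G n)) ∧ A = ⋂ n, G n

/-- 1-embedded subsets. -/
def OneEmbedded (E : Set X) : Prop :=
  (∀ A : Set E, FunFσ A → ∃ B : Set X, FunFσ B ∧ A = Subtype.val ⁻¹' B) ∧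
  (∀ A : Set E, FunGδ A → ∃ B : Set X, FunGδ B ∧ A = Subtype.val ⁻¹' B)

end Defs

/-! ### The space -/

/-- The metric space `Y` with all points outside `S` made isolated. -/
structure M {Y : Type} (S : Set Y) where
  /-- the underlying point -/
  pt : Y

variable {Y : Type} [MetricSpace Y] {S : Set Y}

instance : TopologicalSpace (M S) where
  IsOpen U := ∀ p ∈ U, p.pt ∈ S → ∃ ε > 0, ∀ q : M S, dist q.pt p.pt < ε → q ∈ U
  isOpen_univ := fun _ _ _ => ⟨1, one_pos, fun _ _ => mem_univ _⟩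
  isOpen_inter := by
    rintro U V hU hV p ⟨hpU, hpV⟩ hpS
    obtain ⟨ε, hε, h1⟩ := hU p hpU hpS
    obtain ⟨δ, hδ, h2⟩ := hV p hpV hpS
    exact ⟨min ε δ, lt_min hε hδ, fun q hq =>
      ⟨h1 q (hq.trans_le (min_le_left _ _)), h2 q (hq.trans_le (min_le_right _ _))⟩⟩
  isOpen_sUnion := by
    rintro 𝒰 h𝒰 p ⟨U, hU, hpU⟩ hpS
    obtain ⟨ε, hε, h1⟩ := h𝒰 U hU p hpU hpS
    exact ⟨ε, hε, fun q hq => ⟨U, hU, h1 q hq⟩⟩

theorem isOpen_iff {U : Set (M S)} :
    IsOpen U ↔ ∀ p ∈ U, p.pt ∈ S → ∃ ε > 0, ∀ q : M S, dist q.pt p.pt < ε → q ∈ U := Iff.rfl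

theorem continuous_pt : Continuous (M.pt : M S → Y) := by
  rw [continuous_def]
  intro U hU
  rw [isOpen_iff]
  intro p hp _
  obtain ⟨ε, hε, h⟩ := Metric.isOpen_iff.1 hU p.pt hp
  exact ⟨ε, hε, fun q hq => h hq⟩

omit [MetricSpace Y] in
theorem pt_injective : Function.Injective (M.pt : M S → Y) := fun ⟨_⟩ ⟨_⟩ h => by
  cases h
  rfl

instance : T2Space (M S) := T2Space.of_injective_continuous pt_injective continuous_pt

theorem isOpen_singleton {p : M S} (hp : p.pt ∉ S) : IsOpen ({p} : Set (M S)) := by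
  rw [isOpen_iff]
  intro q hq hqS
  rw [mem_singleton_iff] at hq
  rw [hq] at hqS
  exact (hp hqS).elim

instance : NormalSpace (M S) := by
  constructor
  intro C D hC hD hdisj
  -- radii
  have key : ∀ F : Set (M S), IsClosed F → ∃ ε : M S → ℝ, ∀ p, p ∉ F → p.pt ∈ S →
      0 < ε p ∧ ∀ q : M S, dist q.pt p.pt < ε p → q ∉ F := by
    intro F hF
    have h1 : ∀ p : M S, ∃ e : ℝ, p ∉ F → p.pt ∈ S →
        0 < e ∧ ∀ q : M S, dist q.pt p.pt < e → q ∉ F := by
      intro p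
      by_cases hp : p ∉ F ∧ p.pt ∈ S
      · obtain ⟨e, he, h⟩ := isOpen_iff.1 hF.isOpen_compl p hp.1 hp.2
        exact ⟨e, fun _ _ => ⟨he, h⟩⟩
      · exact ⟨0, fun h2 h3 => (hp ⟨h2, h3⟩).elim⟩
    choose ε hε using h1
    exact ⟨ε, hε⟩
  obtain ⟨ε, hε⟩ := key D hD
  obtain ⟨δ, hδ⟩ := key C hC
  have hCD : ∀ p ∈ C, p ∉ D := fun p hp hp' => Set.disjoint_left.1 hdisj hp hp'
  have hDC : ∀ p ∈ D, p ∉ C := fun p hp hp' => Set.disjoint_left.1 hdisj hp' hp
  refine ⟨{p | p ∈ C ∨ ∃ q ∈ C, q.pt ∈ S ∧ dist p.pt q.pt < ε q / 2},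
    {p | p ∈ D ∨ ∃ q ∈ D, q.pt ∈ S ∧ dist p.pt q.pt < δ q / 2}, ?_, ?_, fun p hp => Or.inl hp,
    fun p hp => Or.inl hp, ?_⟩
  · rw [isOpen_iff]
    rintro p (hp | ⟨q, hq, hqS, hpq⟩) hpS
    · exact ⟨ε p / 2, half_pos (hε p (hCD p hp) hpS).1, fun q hq => Or.inr ⟨p, hp, hpS, hq⟩⟩
    · refine ⟨ε q / 2 - dist p.pt q.pt, by linarith, fun r hr => Or.inr ⟨q, hq, hqS, ?_⟩⟩
      have := dist_triangle r.pt p.pt q.pt
      linarith
  · rw [isOpen_iff]
    rintro p (hp | ⟨q, hq, hqS, hpq⟩) hpS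
    · exact ⟨δ p / 2, half_pos (hδ p (hDC p hp) hpS).1, fun q hq => Or.inr ⟨p, hp, hpS, hq⟩⟩
    · refine ⟨δ q / 2 - dist p.pt q.pt, by linarith, fun r hr => Or.inr ⟨q, hq, hqS, ?_⟩⟩
      have := dist_triangle r.pt p.pt q.pt
      linarith
  · rw [Set.disjoint_left]
    rintro p (hp | ⟨q, hq, hqS, hpq⟩) (hp' | ⟨r, hr, hrS, hpr⟩)
    · exact hCD p hp hp'
    · exact (hδ r (hDC r hr) hrS).2 p (by linarith [(hδ r (hDC r hr) hrS).1]) hp
    · exact (hε q (hCD q hq) hqS).2 p (by linarith [(hε q (hCD q hq) hqS).1]) hp'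
    · have h1 := hε q (hCD q hq) hqS
      have h2 := hδ r (hDC r hr) hrS
      have h3 : dist q.pt r.pt ≤ dist p.pt q.pt + dist p.pt r.pt := by
        have := dist_triangle q.pt p.pt r.pt
        rwa [dist_comm q.pt p.pt] at this
      rcases le_total (ε q) (δ r) with h | h
      · exact h2.2 q (by linarith) hq
      · exact h1.2 r (by rw [dist_comm]; linarith) hr

/-! ### The plane -/

/-- The rational points of the plane. -/
def QQ : Set (ℝ × ℝ) := range (fun q : ℚ × ℚ => ((q.1 : ℝ), (q.2 : ℝ)))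

theorem mem_QQ_iff {z : ℝ × ℝ} : z ∈ QQ ↔ ¬ Irrational z.1 ∧ ¬ Irrational z.2 := by
  unfold Irrational
  rw [not_not, not_not]
  constructor
  · rintro ⟨q, rfl⟩
    exact ⟨⟨q.1, rfl⟩, ⟨q.2, rfl⟩⟩
  · rintro ⟨⟨a, ha⟩, ⟨b, hb⟩⟩
    exact ⟨(a, b), Prod.ext ha hb⟩

/-- The complement of the rational points. -/
def E : Set (M QQ) := {p | p.pt ∉ QQ}

theorem funGδ_E : FunGδ E := by
  obtain ⟨e, he⟩ := exists_surjective_nat (ℚ × ℚ)
  refine ⟨fun n => {p | p.pt ≠ (((e n).1 : ℝ), ((e n).2 : ℝ))}, fun n => ?_, ?_⟩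
  · refine ⟨fun p => projIcc 0 1 zero_le_one (dist p.pt (((e n).1 : ℝ), ((e n).2 : ℝ))),
      continuous_projIcc.comp (continuous_pt.dist continuous_const), ?_⟩
    ext p
    show p.pt ≠ _ ↔ 0 < projIcc (0 : ℝ) 1 zero_le_one (dist p.pt (((e n).1 : ℝ), ((e n).2 : ℝ)))
    rw [← dist_pos, ← Subtype.coe_lt_coe, coe_projIcc]
    show _ ↔ (0 : ℝ) < _
    constructor
    · intro h
      exact lt_max_of_lt_right (lt_min one_pos h)
    · intro h
      rcases lt_max_iff.1 h with h | h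
      · exact (lt_irrefl _ h).elim
      · exact (lt_min_iff.1 h).2
  · ext p
    rw [mem_iInter]
    show ¬ (∃ q : ℚ × ℚ, ((q.1 : ℝ), (q.2 : ℝ)) = p.pt) ↔
      ∀ n, p.pt ≠ (((e n).1 : ℝ), ((e n).2 : ℝ))
    constructor
    · intro h n h'
      exact h ⟨e n, h'.symm⟩
    · rintro h ⟨q, hq⟩
      obtain ⟨n, rfl⟩ := he q
      exact h n hq.symm

instance : DiscreteTopology E := by
  rw [discreteTopology_iff_isOpen_singleton]
  intro p
  have h1 : ({p} : Set E) = Subtype.val ⁻¹' {p.1} := by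
    ext q
    simp [Subtype.ext_iff]
  rw [h1]
  exact (isOpen_singleton p.2).preimage continuous_subtype_val

theorem funClosed_of_discrete {X : Type} [TopologicalSpace X] [DiscreteTopology X] (A : Set X) :
    FunClosed A := by
  classical
  refine ⟨fun x => if x ∈ A then 0 else 1, continuous_of_discreteTopology, ?_⟩
  ext x
  by_cases hx : x ∈ A <;> simp [hx]

/-- The set of points of `E` with irrational second coordinate. -/
def A : Set E := {p | Irrational p.1.pt.2}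

theorem not_trace : ¬ ∃ B : Set (M QQ), FunFσ B ∧ A = Subtype.val ⁻¹' B := by
  rintro ⟨B, ⟨F, hF, rfl⟩, hAB⟩
  choose g hg hFg using hF
  -- the functions on the plane
  set G : ℕ → ℝ × ℝ → ℝ := fun n z => g n ⟨z⟩ with hG
  have hcont : ∀ n, ∀ z ∈ QQ, ContinuousAt (G n) z := by
    intro n z hz
    rw [Metric.continuousAt_iff]
    intro ε hε
    have h1 : IsOpen {p : M QQ | dist ((g n p : ℝ)) (g n ⟨z⟩ : ℝ) < ε} :=
      isOpen_lt ((continuous_subtype_val.comp (hg n)).dist continuous_const) continuous_const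
    obtain ⟨δ, hδ, h2⟩ := isOpen_iff.1 h1 ⟨z⟩ (by simpa using hε) hz
    exact ⟨δ, hδ, fun w hw => h2 ⟨w⟩ hw⟩
  set H : Set (ℝ × ℝ) := ⋂ n, {z | ContinuousAt (G n) z} with hH
  have hHG : IsGδ H := IsGδ.iInter fun n => IsGδ.setOfPred_continuousAt (G n)
  -- irrational points on the rational horizontal lines
  have hline : ∀ r : ℚ, Dense {x : ℝ | (x, (r : ℝ)) ∈ H ∧ Irrational x} := by
    intro r
    have h1 : IsGδ {x : ℝ | (x, (r : ℝ)) ∈ H} :=
      hHG.preimage (f := fun x : ℝ => (x, (r : ℝ))) (by fun_prop)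
    have h2 : Dense {x : ℝ | (x, (r : ℝ)) ∈ H} := by
      refine Rat.denseRange_cast.mono ?_
      rintro _ ⟨q, rfl⟩
      exact mem_iInter.2 fun n => hcont n _ ⟨(q, r), rfl⟩
    exact h2.inter_of_Gδ h1 IsGδ.setOfPred_irrational dense_irrational
  have hpos : ∀ z : ℝ × ℝ, Irrational z.1 → ¬ Irrational z.2 → ∀ n, 0 < G n z := by
    intro z hz1 hz2 n
    have hzE : (⟨z⟩ : M QQ) ∈ E := fun h => (mem_QQ_iff.1 h).1 hz1
    have h1 : (⟨⟨z⟩, hzE⟩ : E) ∉ A := hz2
    rw [hAB] at h1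
    have h2 : g n ⟨z⟩ ≠ 0 := by
      intro h3
      apply h1
      refine mem_iUnion.2 ⟨n, ?_⟩
      rw [hFg n]
      exact h3
    have h3 : 0 < g n ⟨z⟩ := unitInterval.pos_iff_ne_zero.2 h2
    exact h3
  have hD : ∀ n, Dense (interior {z | 0 < G n z}) := by
    intro n
    rw [dense_iff_inter_open]
    rintro U hU ⟨z, hz⟩
    obtain ⟨U₁, U₂, hU₁, hU₂, hz₁, hz₂, hsub⟩ := isOpen_prod_iff.1 hU z.1 z.2 hz
    obtain ⟨r, hr⟩ := (Rat.denseRange_cast (𝕜 := ℝ)).exists_mem_open hU₂ ⟨z.2, hz₂⟩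
    obtain ⟨x, hx₁, hxH, hx⟩ := dense_iff_inter_open.1 (hline r) U₁ hU₁ ⟨z.1, hz₁⟩
    refine ⟨(x, (r : ℝ)), hsub ⟨hx₁, hr⟩, ?_⟩
    rw [mem_interior_iff_mem_nhds]
    have h1 := mem_iInter.1 hxH n
    exact h1.eventually_const_lt (hpos (x, (r : ℝ)) hx (by simp) n)
  have hDall : Dense (⋂ n, interior {z | 0 < G n z}) :=
    dense_iInter_of_isOpen (fun n => isOpen_interior) hD
  have hIrr : Dense {z : ℝ × ℝ | Irrational z.2} := by
    have h1 : {z : ℝ × ℝ | Irrational z.2} = Prod.snd ⁻¹' {y : ℝ | Irrational y} := rfl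
    rw [h1]
    exact dense_irrational.preimage isOpenMap_snd
  have hboth := hDall.inter_of_Gδ (IsGδ.iInter fun n => isOpen_interior.isGδ)
    (IsGδ.setOfPred_irrational.preimage continuous_snd) hIrr
  obtain ⟨z, hz1, hz2⟩ := hboth.nonempty
  have hzE : (⟨z⟩ : M QQ) ∈ E := fun h => (mem_QQ_iff.1 h).2 hz2
  have h1 : (⟨⟨z⟩, hzE⟩ : E) ∈ A := hz2
  rw [hAB] at h1
  obtain ⟨n, hn⟩ := mem_iUnion.1 (show (⟨z⟩ : M QQ) ∈ ⋃ n, F n from h1)
  rw [hFg n] at hn
  have h2 : z ∈ {z | 0 < G n z} := interior_subset (mem_iInter.1 hz1 n)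
  replace h2 : 0 < G n z := h2
  have h3 : g n ⟨z⟩ = 0 := hn
  simp only [hG, h3] at h2
  exact lt_irrefl _ h2

/-- There is a normal `T₁` space with a functionally `G_δ` subset that is not 1-embedded; moreover
this subset is discrete in the subspace topology. -/
theorem result :
    ∃ (X : Type) (_ : TopologicalSpace X), T1Space X ∧ NormalSpace X ∧
      ∃ E : Set X, FunGδ E ∧ DiscreteTopology E ∧ ¬ OneEmbedded E := by
  refine ⟨M QQ, inferInstance, inferInstance, inferInstance, E, funGδ_E, inferInstance, ?_⟩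
  intro h
  exact not_trace (h.1 A ⟨fun _ => A, fun _ => funClosed_of_discrete A, (iUnion_const A).symm⟩)

end Pool.Agent.Results.MP_aca66f_gt.IsolatedIrrationals
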